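import Pool.Agent.Helper18.FM.GoalsA
import Pool.Agent.Helper57.HX.Ex
import Pool.Agent.Helper57.RBC.Conc

/-!
# FM: the function `v = S - ε tr (g Q⁻¹)` (S_FVD)
-/

open Complex Metric Set Filter Topology MeasureTheory
open scoped ContDiff ComplexConjugate ComplexOrder Manifold Matrix

namespace Pool.Agent.Helper57.FM.FVD

open Pool.Agent.Helper95.Lin Pool.Agent.Helper16.Abund Pool.Agent.Helper92.Orb
  Pool.Agent.Helper10.SP Pool.Agent.Helper95.RK Pool.Agent.Helper57.HS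
  Pool.Agent.Helper15.HS Pool.Agent.Helper15.GS Pool.Agent.Helper57.RBC Pool.Agent.Helper82.HB
  Pool.Agent.Helper57.HX
open Pool.Agent.Helper10.RBC (dn)
open Pool.Agent.Helper27.TRB (tw)
open Pool.Agent.Helper18.FM
open Pool.Agent.Helper16.HS.AYTP (her_ket chf_ket)
open Pool.Agent.Helper56.HS.DBZ (contM cont_inv)

universe u

theorem smul_tw {n : ℕ} (χ H' : Cn n → Matrix (Fin n) (Fin n) ℂ) {ε : ℝ} (hε : 0 < ε)
    (x : Cn n) : (ε : ℂ) • tw χ ε H' x = (ε : ℂ) • H' x + χ x := by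
  unfold tw
  rw [smul_add, smul_smul, ← Complex.ofReal_mul, mul_inv_cancel₀ hε.ne', Complex.ofReal_one,
    one_smul]

/-- Continuity of `tr (χ Q⁻¹ h Q⁻¹)`. -/
theorem trq_cont {n : ℕ} {T : Set (Cn n)} {χ h Q : Cn n → Matrix (Fin n) (Fin n) ℂ}
    (hχ : ContinuousOn χ T) (hh : ContinuousOn h T) (hQ : ContinuousOn Q T)
    (hQd : ∀ x ∈ T, (Q x).det ≠ 0) :
    ContinuousOn (fun x => (Matrix.trace (χ x * (Q x)⁻¹ * h x * (Q x)⁻¹)).re) T := by
  have hi : ContinuousOn (fun x => (Q x)⁻¹) T := cont_inv hQ hQd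
  have h1 : ContinuousOn (fun x => χ x * (Q x)⁻¹ * h x * (Q x)⁻¹) T :=
    ((hχ.mul hi).mul hh).mul hi
  have h2 : Continuous fun X : Matrix (Fin n) (Fin n) ℂ => (Matrix.trace X).re := by fun_prop
  exact h2.comp_continuousOn h1

theorem invH_add {n : ℕ} {G : Type u} {R : G → Cn n → Cn n → Prop}
    {A B : Cn n → Matrix (Fin n) (Fin n) ℂ} (hA : InvH R A) (hB : InvH R B) :
    InvH R fun x => A x + B x := by
  intro U τ hU x hx u v
  have h1 : ∀ (X Y : Matrix (Fin n) (Fin n) ℂ) (a b : Cn n),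
      hermi (X + Y) a b = hermi X a b + hermi Y a b := by
    intro X Y a b
    unfold hermi
    simp only [Matrix.add_apply, add_mul, Finset.sum_add_distrib]
  show hermi (A (τ x) + B (τ x)) _ _ = hermi (A x + B x) u v
  rw [h1, h1, hA U τ hU x hx u v, hB U τ hU x hx u v]

/-- The trace `tr (χ Q⁻¹ g Q⁻¹)` is invariant. -/
theorem trq_inv (hIFN : S_IFN.{u}) {n : ℕ} {T : Set (Cn n)} {G : Type u} [Group G]
    {R : G → Cn n → Cn n → Prop} {χ g Q : Cn n → Matrix (Fin n) (Fin n) ℂ} (hQ : KEt T R Q)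
    (hχ : InvH R χ) (hg : InvH R g) {γ : G} {x y : Cn n} (hxy : R γ x y) :
    Matrix.trace (χ y * (Q y)⁻¹ * g y * (Q y)⁻¹) =
      Matrix.trace (χ x * (Q x)⁻¹ * g x * (Q x)⁻¹) := by
  have hHer := her_ket hQ
  have e3 : ∀ z : Cn n, Matrix.trace (χ z * (Q z)⁻¹ * g z * (Q z)⁻¹) =
      (1 / 2 : ℂ) * (Matrix.trace ((χ z + g z) * (Q z)⁻¹ * ((χ z + g z) * (Q z)⁻¹)) -
        Matrix.trace (χ z * (Q z)⁻¹ * (χ z * (Q z)⁻¹)) -
        Matrix.trace (g z * (Q z)⁻¹ * (g z * (Q z)⁻¹))) := by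
    intro z
    have h1 : Matrix.trace (g z * (Q z)⁻¹ * (χ z * (Q z)⁻¹)) =
        Matrix.trace (χ z * (Q z)⁻¹ * (g z * (Q z)⁻¹)) := Matrix.trace_mul_comm _ _
    have h2 : χ z * (Q z)⁻¹ * g z * (Q z)⁻¹ = χ z * (Q z)⁻¹ * (g z * (Q z)⁻¹) := by
      simp only [Matrix.mul_assoc]
    rw [h2]
    simp only [Matrix.add_mul, Matrix.mul_add, Matrix.trace_add]
    rw [h1]
    ring
  have f1 := (hIFN T R hQ.et Q (fun x => χ x + g x) hHer
    (invH_add hχ hg)).2 γ x y hxy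
  have f2 := (hIFN T R hQ.et Q χ hHer hχ).2 γ x y hxy
  have f3 := (hIFN T R hQ.et Q g hHer hg).2 γ x y hxy
  rw [e3 x, e3 y, f1.2.2, f2.2.2, f3.2.2]

theorem t (hWIRT : S_WIRT) (hDETI : S_DETI.{u}) (hMAXF : Pool.Agent.Helper95.HS.S_MAXF.{u})
    (hTRI : Pool.Agent.Helper95.HS.S_TRI.{u}) (hKETP : Pool.Agent.Helper95.HS.S_KETP.{u})
    (hIFN : S_IFN.{u}) (hFCL : S_FCL.{u}) : S_FVD.{u} := by
  intro n m T G _ R H' σ h χ hH' hSF hPF hTRS κ hκ S ε Q hε hS hQ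
  have hT := hH'.et.isOpen
  have hQk := hQ.ket
  have hD := hDETI T R Q hQk
  have hdc : ContinuousOn (fun x => (Q x).det.re) T := hD.2.1.continuousOn
  have hd0 : ∀ x ∈ T, 0 ≤ (Q x).det.re := fun x hx => (hD.1 x hx).2.1.le
  obtain ⟨hgs, htI, hAc, hNc, hinv, hpt⟩ := hFCL T R σ h hSF Q (fun x => (ε : ℂ) • tw χ ε H' x)
    hQk hQ.eq
  have hvI : InvF T R (fun x => S - ε * tS σ h Q x) := by
    refine ⟨contDiffOn_const.sub (contDiffOn_const.mul htI.1), fun γ x y hxy => ?_⟩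
    have := htI.2 γ x y hxy
    simp only at this ⊢
    rw [this]
  -- the error
  have hcc0 : ContinuousOn (fun x =>
      (Matrix.trace (χ x * (Q x)⁻¹ * gS σ h x * (Q x)⁻¹)).re) T :=
    trq_cont (contM hPF.smooth) (contM hgs) (contM hQk.smooth)
      fun x hx => (hQk.posDef x hx).det_pos.ne'
  have hKK : ∀ x ∈ T, 0 ≤ NKs σ h Q x +
      (Matrix.trace (χ x * (Q x)⁻¹ * gS σ h x * (Q x)⁻¹)).re :=
    fun x hx => hTRS x hx _ (hQk.posDef x hx).posSemidef.inv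
  have hcl : ∀ x ∈ T, (trL Q (tS σ h Q) x).re = - tS σ h Q x +
      ε * (Matrix.trace (H' x * (Q x)⁻¹ * gS σ h x * (Q x)⁻¹)).re + AAs σ h Q x +
      (NKs σ h Q x + (Matrix.trace (χ x * (Q x)⁻¹ * gS σ h x * (Q x)⁻¹)).re) := by
    intro x hx
    rw [(hpt x hx).2.2.2.2.2.1]
    rw [smul_tw χ H' hε x, Matrix.add_mul, Matrix.add_mul, Matrix.add_mul, Matrix.smul_mul,
      Matrix.smul_mul, Matrix.smul_mul, Matrix.trace_add, Matrix.trace_smul, smul_eq_mul,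
      Complex.add_re, Complex.re_ofReal_mul]
    ring
  -- the arithmetic-geometric inequality
  have hag : ∀ x ∈ T, 2 * (ε * tS σ h Q x) ≤
      S + ε * (ε * (Matrix.trace (H' x * (Q x)⁻¹ * gS σ h x * (Q x)⁻¹)).re) := by
    intro x hx
    obtain ⟨ht0, hb0, ha0, hcs⟩ := cs_tr (hH'.posDef x hx) (hpt x hx).1 (hQk.posDef x hx)
    have hsb := hS x hx
    unfold tS
    set t := (Matrix.trace (gS σ h x * (Q x)⁻¹)).re
    set a := (Matrix.trace (H' x * (Q x)⁻¹ * gS σ h x * (Q x)⁻¹)).re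
    set b := (Matrix.trace (gS σ h x * (H' x)⁻¹)).re
    have hS0 : 0 ≤ S := hb0.trans hsb
    have hα : 0 ≤ ε * (ε * a) := by positivity
    have h1 : (ε * t) ^ 2 ≤ (ε * (ε * a)) * S := by
      calc (ε * t) ^ 2 = ε * ε * t ^ 2 := by ring
        _ ≤ ε * ε * (a * b) := mul_le_mul_of_nonneg_left hcs (by positivity)
        _ ≤ ε * ε * (a * S) := mul_le_mul_of_nonneg_left
            (mul_le_mul_of_nonneg_left hsb ha0) (by positivity)
        _ = (ε * (ε * a)) * S := by ring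
    have h2 : (2 * (ε * t)) ^ 2 ≤ (S + ε * (ε * a)) ^ 2 := by
      nlinarith [sq_nonneg (S - ε * (ε * a))]
    exact (pow_le_pow_iff_left₀ (by positivity) (by positivity) (by norm_num)).1 h2
  -- the sharp bound
  have hv0 : ∀ x ∈ T, 0 ≤ S - ε * tS σ h Q x := by
    obtain ⟨x₀, hx₀, hmax, hpsd⟩ := hMAXF T R hH'.et _ htI
    have hQp := hQk.posDef x₀ hx₀
    have hle : (trL Q (tS σ h Q) x₀).re ≤ 0 := by
      have h1 := tr_mul_nonneg hQp.posSemidef.inv hpsd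
      rw [Matrix.mul_neg, Matrix.trace_neg, Complex.neg_re] at h1
      unfold trL
      linarith
    have h1 := hcl x₀ hx₀
    have h2 := (hpt x₀ hx₀).2.2.1
    have h3 := hKK x₀ hx₀
    have h4 := (hpt x₀ hx₀).2.1
    obtain ⟨ht0, hb0, ha0, hcs⟩ := cs_tr (hH'.posDef x₀ hx₀) (hpt x₀ hx₀).1 hQp
    have hsb := hS x₀ hx₀
    have hcs' : (tS σ h Q x₀) ^ 2 ≤
        (Matrix.trace (H' x₀ * (Q x₀)⁻¹ * gS σ h x₀ * (Q x₀)⁻¹)).re *
          (Matrix.trace (gS σ h x₀ * (H' x₀)⁻¹)).re := hcs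
    set a := (Matrix.trace (H' x₀ * (Q x₀)⁻¹ * gS σ h x₀ * (Q x₀)⁻¹)).re
    set b := (Matrix.trace (gS σ h x₀ * (H' x₀)⁻¹)).re
    set t := tS σ h Q x₀ with ht
    have h5 : ε * a ≤ t := by linarith
    have h6 : ε * t ≤ S := by
      rcases h4.eq_or_lt with h0 | h0
      · rw [← h0, mul_zero]
        linarith
      · have h7 : ε * t * t ≤ S * t := by
          calc ε * t * t = ε * t ^ 2 := by ring
            _ ≤ ε * (a * b) := mul_le_mul_of_nonneg_left hcs' hε.le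
            _ = (ε * a) * b := by ring
            _ ≤ t * b := mul_le_mul_of_nonneg_right h5 hb0
            _ ≤ t * S := mul_le_mul_of_nonneg_left hsb h0.le
            _ = S * t := by ring
        exact le_of_mul_le_mul_right h7 h0
    intro x hx
    have h7 := mul_le_mul_of_nonneg_left (hmax x hx) hε.le
    linarith
  have htrc : ContinuousOn (fun x => (trL Q (tS σ h Q) x).re) T :=
    ((hKETP T R hH'.et).2.2 Q _ hQk htI).1.1.continuousOn
  have htr0 := (hTRI T R Q hQk).2 κ hκ _ htI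
  have hcc : ContinuousOn (fun x => ε * ERR σ h χ Q x) T :=
    continuousOn_const.mul (hAc.add (hNc.add hcc0))
  refine ⟨hvI, hv0, ?_, hcc, ?_, ?_, ?_⟩
  · intro x hx
    rw [trL_sub_mul hWIRT hT htI.1 S ε Q hx, hcl x hx]
    have h1 := (hpt x hx).2.2.1
    have h2 := hKK x hx
    have h3 := hag x hx
    nlinarith [mul_nonneg hε.le h1, mul_nonneg hε.le h2]
  · intro x hx
    exact ⟨mul_nonneg hε.le (hpt x hx).2.2.1, mul_nonneg hε.le (hKK x hx)⟩
  · intro γ x y hxy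
    unfold ERR
    rw [trq_inv hIFN hQk hPF.inv hSF.inv hxy, ← add_assoc, ← add_assoc, hinv γ x y hxy]
  · refine avE_le hT hκ.test hκ.nonneg hdc hd0 hcc
      hvI.1.continuousOn htrc htr0 (c := ε) fun x hx => ?_
    have h0 := hcl x hx
    have h1 := (hpt x hx).2.2.1
    have h2 := hKK x hx
    have h3 := hag x hx
    rw [h0]
    unfold ERR
    nlinarith [mul_nonneg hε.le h1, mul_nonneg hε.le h2]

end Pool.Agent.Helper57.FM.FVD
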